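import Mathlib
import Pool.Agent.TH446.HN.Loc

/-!
# Vertex-transitive families blocking acceptable Hamilton cycles have order `n ^ 3`
-/

namespace Pool.Agent.Results.MP_ef0d97_co.CubicOrder

open Finset

/-- The Hamilton cycle `c 0, c 1, …, c (n-1)` of `K_n` is `(2,2)`-acceptable with respect to `F`:
no two vertex-disjoint edges of it have their union in `F`. -/
def Acceptable {n : ℕ} (F : Finset (Finset (Fin n))) (c : ZMod n ≃ Fin n) : Prop :=
  ∀ i j : ZMod n, Disjoint ({c i, c (i + 1)} : Finset (Fin n)) {c j, c (j + 1)} →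
    ({c i, c (i + 1)} ∪ {c j, c (j + 1)} : Finset (Fin n)) ∉ F

/-- `F` is a family of 4-element sets and there is no acceptable Hamilton cycle. -/
def Blocking {n : ℕ} (F : Finset (Finset (Fin n))) : Prop :=
  (∀ X ∈ F, X.card = 4) ∧ ∀ c : ZMod n ≃ Fin n, ¬ Acceptable F c

/-- The group of the permutations that leave `F` invariant is transitive on the vertices. -/
def VertexTransitive {n : ℕ} (F : Finset (Finset (Fin n))) : Prop :=
  ∀ x y : Fin n, ∃ σ : Equiv.Perm (Fin n), F.image (fun X => X.image σ) = F ∧ σ x = y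

/-- The smallest size of a vertex-transitive blocking family. -/
noncomputable def v (n : ℕ) : ℕ :=
  sInf {k | ∃ F : Finset (Finset (Fin n)), Blocking F ∧ VertexTransitive F ∧ F.card = k}

/-! ## The switching inequality for permutations -/

section Switch

variable {α β : Type} [Fintype α] [Fintype β] [DecidableEq α] [DecidableEq β]

/-- The bijections with the first `k` assignments and the property `Q`. -/
noncomputable def XX (p : Fin 4 → α) (w : Fin 4 → β) (Q : (α ≃ β) → Prop) (k : ℕ) :
    Finset (α ≃ β) := by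
  classical exact univ.filter fun σ => (∀ l : Fin 4, l.1 < k → σ (p l) = w l) ∧ Q σ

lemma mem_XX {p : Fin 4 → α} {w : Fin 4 → β} {Q : (α ≃ β) → Prop} {k : ℕ} {σ : α ≃ β} :
    σ ∈ XX p w Q k ↔ (∀ l : Fin 4, l.1 < k → σ (p l) = w l) ∧ Q σ := by
  classical
  unfold XX
  simp

lemma step (p : Fin 4 → α) (w : Fin 4 → β) (hw : Function.Injective w)
    (Q : (α ≃ β) → Prop)
    (hQ : ∀ σ : α ≃ β, ∀ k : Fin 4, ∀ c : β, σ (p k) = w k → Q σ →
      Q (σ.trans (Equiv.swap (w k) c)))
    (k : ℕ) (hk : k < 4) :
    (Fintype.card β - k) * (XX p w Q (k + 1)).card ≤ (XX p w Q k).card := by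
  classical
  set C : Finset β := univ \ (univ.filter fun l : Fin 4 => l.1 < k).image w with hC
  have hCc : Fintype.card β - k ≤ C.card := by
    rw [hC, card_univ_sdiff]
    have h1 : ((univ.filter fun l : Fin 4 => l.1 < k).image w).card ≤ k := by
      refine card_image_le.trans ?_
      have : ∀ k < 4, (univ.filter fun l : Fin 4 => l.1 < k).card ≤ k := by decide
      exact this k hk
    omega
  have h1 : ∀ c ∈ C, (XX p w Q (k + 1)).card ≤
      ((XX p w Q k).filter fun σ => σ (p ⟨k, hk⟩) = c).card := by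
    intro c hc
    refine card_le_card_of_injOn (fun σ => σ.trans (Equiv.swap (w ⟨k, hk⟩) c)) ?_ ?_
    · intro σ hσ
      rw [mem_coe, mem_XX] at hσ
      rw [mem_coe, mem_filter, mem_XX]
      have h2 := hσ.1 ⟨k, hk⟩ (Nat.lt_succ_self k)
      refine ⟨⟨?_, hQ σ _ c h2 hσ.2⟩, ?_⟩
      · intro l hl
        rw [Equiv.trans_apply, hσ.1 l (by omega)]
        apply Equiv.swap_apply_of_ne_of_ne
        · intro h
          have := congrArg Fin.val (hw h)
          simp only at this
          omega
        · intro h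
          rw [hC, mem_sdiff] at hc
          apply hc.2
          rw [mem_image]
          exact ⟨l, by simpa using hl, h⟩
      · rw [Equiv.trans_apply, h2, Equiv.swap_apply_left]
    · intro σ _ τ _ h
      ext x
      have := congrArg (fun e : α ≃ β => e x) h
      simp only [Equiv.trans_apply] at this
      exact (Equiv.swap (w ⟨k, hk⟩) c).injective this
  calc (Fintype.card β - k) * (XX p w Q (k + 1)).card ≤ C.card * (XX p w Q (k + 1)).card :=
        Nat.mul_le_mul_right _ hCc
    _ = ∑ _c ∈ C, (XX p w Q (k + 1)).card := by rw [sum_const, smul_eq_mul]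
    _ ≤ ∑ c ∈ C, ((XX p w Q k).filter fun σ => σ (p ⟨k, hk⟩) = c).card := sum_le_sum h1
    _ ≤ ∑ c : β, ((XX p w Q k).filter fun σ => σ (p ⟨k, hk⟩) = c).card :=
        sum_le_sum_of_subset (subset_univ _)
    _ = (XX p w Q k).card := by
        rw [← card_eq_sum_card_fiberwise]
        intro σ _
        exact mem_coe.2 (mem_univ _)

lemma four (p : Fin 4 → α) (w : Fin 4 → β) (hw : Function.Injective w)
    (Q : (α ≃ β) → Prop)
    (hQ : ∀ σ : α ≃ β, ∀ k : Fin 4, ∀ c : β, σ (p k) = w k → Q σ →
      Q (σ.trans (Equiv.swap (w k) c))) :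
    (Fintype.card β * (Fintype.card β - 1) * (Fintype.card β - 2) * (Fintype.card β - 3)) *
      (XX p w Q 4).card ≤ (XX p w Q 0).card := by
  have h0 := step p w hw Q hQ 0 (by norm_num)
  have h1 := step p w hw Q hQ 1 (by norm_num)
  have h2 := step p w hw Q hQ 2 (by norm_num)
  have h3 := step p w hw Q hQ 3 (by norm_num)
  set b := Fintype.card β
  calc (b * (b - 1) * (b - 2) * (b - 3)) * (XX p w Q 4).card
      = (b - 0) * ((b - 1) * ((b - 2) * ((b - 3) * (XX p w Q 4).card))) := by
        rw [Nat.sub_zero]; ring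
    _ ≤ (b - 0) * ((b - 1) * ((b - 2) * (XX p w Q 3).card)) := by gcongr
    _ ≤ (b - 0) * ((b - 1) * (XX p w Q 2).card) := by gcongr
    _ ≤ (b - 0) * (XX p w Q 1).card := by gcongr
    _ ≤ (XX p w Q 0).card := h0

end Switch

/-! ## The events -/

section Events

variable {n : ℕ} [NeZero n]

/-- Indices of events: two positions and four vertices. -/
abbrev Idx (n : ℕ) := (ZMod n × ZMod n) × (Fin 4 → Fin n)

/-- The four positions of an event. -/
def pos (e : Idx n) : Fin 4 → ZMod n := ![e.1.1, e.1.1 + 1, e.1.2, e.1.2 + 1]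

/-- The event: the four positions carry the four vertices. -/
def Ev (e : Idx n) (σ : ZMod n ≃ Fin n) : Prop := ∀ k, σ (pos e k) = e.2 k

/-- Two events share a position or a vertex. -/
def Nb (e e' : Idx n) : Prop := ∃ r s : Fin 4, pos e r = pos e' s ∨ e.2 r = e'.2 s

/-- The ordered members of `F`. -/
noncomputable def Tup (F : Finset (Finset (Fin n))) : Finset (Fin 4 → Fin n) := by
  classical exact univ.filter fun w => Function.Injective w ∧ univ.image w ∈ F

omit [NeZero n] in
lemma mem_Tup {F : Finset (Finset (Fin n))} {w : Fin 4 → Fin n} :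
    w ∈ Tup F ↔ Function.Injective w ∧ univ.image w ∈ F := by
  classical
  unfold Tup
  rw [mem_filter]
  simp

/-- The indices of the bad events. -/
noncomputable def II (F : Finset (Finset (Fin n))) : Finset (Idx n) := by
  classical exact univ.filter fun e => Function.Injective (pos e) ∧ e.2 ∈ Tup F

lemma mem_II {F : Finset (Finset (Fin n))} {e : Idx n} :
    e ∈ II F ↔ Function.Injective (pos e) ∧ e.2 ∈ Tup F := by
  classical
  unfold II
  rw [mem_filter]
  simp

lemma card_ZMod' : Fintype.card (ZMod n) = n := ZMod.card n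

/-- The lopsided condition. -/
lemma lop (e : Idx n) (hp : Function.Injective (pos e)) (hw : Function.Injective e.2)
    (S : Finset (Idx n)) (hS : ∀ e' ∈ S, ¬ Nb e e') :
    (n * (n - 1) * (n - 2) * (n - 3)) *
      (TH446.HN.AvIn (univ : Finset (ZMod n ≃ Fin n)) Ev e S).card ≤
      (TH446.HN.Av (univ : Finset (ZMod n ≃ Fin n)) Ev S).card := by
  classical
  have h := four (pos e) e.2 hw (fun σ : ZMod n ≃ Fin n => ∀ e' ∈ S, ¬ Ev e' σ) ?_
  · rw [Fintype.card_fin] at h
    refine le_trans (Nat.mul_le_mul_left _ (card_le_card ?_)) (h.trans (card_le_card ?_))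
    · intro σ hσ
      rw [TH446.HN.mem_AvIn] at hσ
      rw [mem_XX]
      exact ⟨fun l _ => hσ.2.1 l, hσ.2.2⟩
    · intro σ hσ
      rw [mem_XX] at hσ
      rw [TH446.HN.mem_Av]
      exact ⟨mem_univ _, hσ.2⟩
  · intro σ k c hk hσ e' he' hev
    apply hσ e' he'
    intro s
    have h1 := hev s
    rw [Equiv.trans_apply] at h1
    have hn := hS e' he'
    have hp' : pos e' s ≠ pos e k := fun h => hn ⟨k, s, Or.inl h.symm⟩
    have hv' : e'.2 s ≠ e.2 k := fun h => hn ⟨k, s, Or.inr h.symm⟩
    have h2 : σ (pos e' s) ≠ e.2 k := by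
      rw [← hk]
      exact fun h => hp' (σ.injective h)
    have h3 : σ (pos e' s) ≠ c := by
      intro h
      rw [h, Equiv.swap_apply_right] at h1
      exact hv' h1.symm
    rwa [Equiv.swap_apply_of_ne_of_ne h2 h3] at h1

/-- The number of events with a given position. -/
lemma count_pos (F : Finset (Finset (Fin n))) (s : Fin 4) (x : ZMod n) :
    ((II F).filter fun e => pos e s = x).card ≤ n * (Tup F).card := by
  classical
  have h : (univ ×ˢ Tup F : Finset (ZMod n × (Fin 4 → Fin n))).card = n * (Tup F).card := by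
    rw [card_product, card_univ, card_ZMod']
  rw [← h]
  by_cases hs : s = 0 ∨ s = 1
  · refine card_le_card_of_injOn (fun e => (e.1.2, e.2)) ?_ ?_
    · intro e he
      rw [mem_coe, mem_filter, mem_II] at he
      rw [mem_coe, mem_product]
      exact ⟨mem_univ _, he.1.2⟩
    · rintro ⟨⟨i, j⟩, w⟩ he ⟨⟨i', j'⟩, w'⟩ he' hee
      rw [mem_coe, mem_filter] at he he'
      simp only [Prod.mk.injEq] at hee ⊢
      refine ⟨⟨?_, hee.1⟩, hee.2⟩
      have h1 := he.2.trans he'.2.symm
      rcases hs with rfl | rfl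
      · simpa [pos] using h1
      · simpa [pos] using h1
  · refine card_le_card_of_injOn (fun e => (e.1.1, e.2)) ?_ ?_
    · intro e he
      rw [mem_coe, mem_filter, mem_II] at he
      rw [mem_coe, mem_product]
      exact ⟨mem_univ _, he.1.2⟩
    · rintro ⟨⟨i, j⟩, w⟩ he ⟨⟨i', j'⟩, w'⟩ he' hee
      rw [mem_coe, mem_filter] at he he'
      simp only [Prod.mk.injEq] at hee ⊢
      refine ⟨⟨hee.1, ?_⟩, hee.2⟩
      have h1 := he.2.trans he'.2.symm
      have hs' : s = 2 ∨ s = 3 := by
        revert hs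
        revert s
        intro s _ _ _ hs
        fin_cases s <;> simp_all
      rcases hs' with rfl | rfl
      · simpa [pos] using h1
      · simpa [pos] using h1

/-- The number of events with a given vertex. -/
lemma count_val (F : Finset (Finset (Fin n))) (s : Fin 4) (y : Fin n) :
    ((II F).filter fun e => e.2 s = y).card ≤ n ^ 2 * ((Tup F).filter fun w => w s = y).card := by
  classical
  have h : (univ ×ˢ (Tup F).filter fun w => w s = y :
      Finset ((ZMod n × ZMod n) × (Fin 4 → Fin n))).card =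
      n ^ 2 * ((Tup F).filter fun w => w s = y).card := by
    rw [card_product, card_univ, Fintype.card_prod, card_ZMod']
    ring
  rw [← h]
  apply card_le_card
  intro e he
  rw [mem_filter, mem_II] at he
  rw [mem_product, mem_filter]
  exact ⟨mem_univ _, he.1.2, he.2⟩

/-- By transitivity every vertex is in the same number of ordered members. -/
lemma count_tup (F : Finset (Finset (Fin n))) (hF : VertexTransitive F) (s : Fin 4) (y : Fin n) :
    n * ((Tup F).filter fun w => w s = y).card ≤ (Tup F).card := by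
  classical
  have h1 : ∀ y' : Fin n, ((Tup F).filter fun w => w s = y).card ≤
      ((Tup F).filter fun w => w s = y').card := by
    intro y'
    obtain ⟨σ, hσ, hy⟩ := hF y y'
    refine card_le_card_of_injOn (fun w => σ ∘ w) ?_ ?_
    · intro w hw
      rw [mem_coe, mem_filter, mem_Tup] at hw
      rw [mem_coe, mem_filter, mem_Tup]
      refine ⟨⟨σ.injective.comp hw.1.1, ?_⟩, ?_⟩
      · rw [← image_image, ← hσ]
        exact mem_image_of_mem _ hw.1.2
      · change σ (w s) = y'
        rw [hw.2, hy]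
    · intro w _ w' _ h
      funext k
      exact σ.injective (congrFun h k)
  calc n * ((Tup F).filter fun w => w s = y).card
      = ∑ _y' : Fin n, ((Tup F).filter fun w => w s = y).card := by
        rw [sum_const, card_univ, Fintype.card_fin, smul_eq_mul]
    _ ≤ ∑ y' : Fin n, ((Tup F).filter fun w => w s = y').card := sum_le_sum fun y' _ => h1 y'
    _ = (Tup F).card := by
        rw [← card_eq_sum_card_fiberwise]
        intro σ _
        exact mem_coe.2 (mem_univ _)

/-- The number of neighbours of an event. -/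
lemma count_nb (F : Finset (Finset (Fin n))) (hF : VertexTransitive F) (e : Idx n) :
    (open scoped Classical in ((II F).filter fun e' => Nb e e').card) ≤ 32 * (n * (Tup F).card) := by
  classical
  have h1 : ((II F).filter fun e' => Nb e e') ⊆
      (univ : Finset (Fin 4 × Fin 4)).biUnion fun rs =>
        ((II F).filter fun e' => pos e' rs.2 = pos e rs.1) ∪
        ((II F).filter fun e' => e'.2 rs.2 = e.2 rs.1) := by
    intro e' he'
    rw [mem_filter] at he'
    obtain ⟨he', r, s, h⟩ := he'
    rw [mem_biUnion]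
    refine ⟨(r, s), mem_univ _, ?_⟩
    rw [mem_union, mem_filter, mem_filter]
    rcases h with h | h
    · exact Or.inl ⟨he', h.symm⟩
    · exact Or.inr ⟨he', h.symm⟩
  have h2 : ∀ rs : Fin 4 × Fin 4,
      (((II F).filter fun e' => pos e' rs.2 = pos e rs.1) ∪
        ((II F).filter fun e' => e'.2 rs.2 = e.2 rs.1)).card ≤ 2 * (n * (Tup F).card) := by
    intro rs
    refine (card_union_le _ _).trans ?_
    have h3 := count_pos F rs.2 (pos e rs.1)
    have h4 := count_val F rs.2 (e.2 rs.1)
    have h5 := count_tup F hF rs.2 (e.2 rs.1)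
    have h6 : n ^ 2 * ((Tup F).filter fun w => w rs.2 = e.2 rs.1).card ≤ n * (Tup F).card := by
      calc _ = n * (n * ((Tup F).filter fun w => w rs.2 = e.2 rs.1).card) := by ring
        _ ≤ _ := Nat.mul_le_mul_left _ h5
    omega
  calc ((II F).filter fun e' => Nb e e').card ≤ _ := card_le_card h1
    _ ≤ ∑ rs : Fin 4 × Fin 4, (((II F).filter fun e' => pos e' rs.2 = pos e rs.1) ∪
        ((II F).filter fun e' => e'.2 rs.2 = e.2 rs.1)).card := card_biUnion_le
    _ ≤ ∑ _rs : Fin 4 × Fin 4, 2 * (n * (Tup F).card) := sum_le_sum fun rs _ => h2 rs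
    _ = 32 * (n * (Tup F).card) := by
        rw [sum_const, card_univ, Fintype.card_prod, Fintype.card_fin, smul_eq_mul]
        ring

/-- Every member has at most `24` orderings. -/
lemma card_Tup (F : Finset (Finset (Fin n))) (h4 : ∀ X ∈ F, X.card = 4) :
    (Tup F).card ≤ 24 * F.card := by
  classical
  have h1 : (Tup F).card = ∑ X ∈ F, ((Tup F).filter fun w => univ.image w = X).card := by
    apply card_eq_sum_card_fiberwise
    intro w hw
    rw [mem_coe, mem_Tup] at hw
    exact mem_coe.2 hw.2
  rw [h1]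
  have h2 : ∀ X ∈ F, ((Tup F).filter fun w => univ.image w = X).card ≤ 24 := by
    intro X hX
    set Y := (Tup F).filter fun w => univ.image w = X with hY
    have h3 : Fintype.card Y ≤ Fintype.card (Fin 4 ↪ X) := by
      refine Fintype.card_le_of_injective
        (fun w : Y => (⟨fun k => ⟨w.1 k, ?_⟩, ?_⟩ : Fin 4 ↪ X)) ?_
      · have hw := w.2
        simp only [hY, mem_filter] at hw
        rw [← hw.2]
        exact mem_image_of_mem _ (mem_univ k)
      · intro k l hkl
        have hw := w.2
        simp only [hY, mem_filter, mem_Tup] at hw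
        exact hw.1.1 (congrArg Subtype.val hkl)
      · intro w w' h
        apply Subtype.ext
        funext k
        have := congrArg (fun f : Fin 4 ↪ X => (f k).1) h
        exact this
    rw [Fintype.card_coe, Fintype.card_embedding_eq, Fintype.card_fin, Fintype.card_coe,
      h4 X hX] at h3
    exact h3.trans (by decide)
  calc ∑ X ∈ F, ((Tup F).filter fun w => univ.image w = X).card ≤ ∑ _X ∈ F, 24 :=
        sum_le_sum h2
    _ = 24 * F.card := by rw [sum_const, smul_eq_mul, mul_comm]

omit [NeZero n] in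
lemma inj4 {γ : Type} (a b c d : γ) (h1 : a ≠ b) (h2 : a ≠ c) (h3 : a ≠ d) (h4 : b ≠ c)
    (h5 : b ≠ d) (h6 : c ≠ d) : Function.Injective ![a, b, c, d] := by
  intro k l hkl
  fin_cases k <;> fin_cases l <;> simp_all

/-- Existence of an acceptable Hamilton cycle. -/
lemma exists_acceptable (hn : 4 ≤ n) (F : Finset (Finset (Fin n))) (hF : VertexTransitive F)
    (h4 : ∀ X ∈ F, X.card = 4)
    (hsmall : 3072 * F.card ≤ (n - 1) * (n - 2) * (n - 3)) :
    ∃ c : ZMod n ≃ Fin n, Acceptable F c := by
  classical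
  set N : ℕ := n * (n - 1) * (n - 2) * (n - 3) with hN
  have hNpos : 4 ≤ N := by
    have h1 : 1 ≤ (n - 1) := by omega
    have h2 : 1 ≤ (n - 2) := by omega
    have h3 : 1 ≤ (n - 3) := by omega
    calc 4 = 4 * 1 * 1 * 1 := by norm_num
      _ ≤ N := by rw [hN]; gcongr
  have hNr : (4 : ℝ) ≤ N := by exact_mod_cast hNpos
  have hcardeq : Fintype.card (ZMod n) = Fintype.card (Fin n) := by
    rw [card_ZMod', Fintype.card_fin]
  have hlop : ∀ e ∈ II F, ∀ S ⊆ II F, (∀ e' ∈ S, ¬ Nb e e') →
      ((TH446.HN.AvIn (univ : Finset (ZMod n ≃ Fin n)) Ev e S).card : ℝ) ≤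
        1 / (N : ℝ) * (TH446.HN.Av (univ : Finset (ZMod n ≃ Fin n)) Ev S).card := by
    intro e he S _ hS
    rw [mem_II, mem_Tup] at he
    have h1 := lop e he.1 he.2.1 S hS
    have h2 : (N : ℝ) * ((TH446.HN.AvIn univ Ev e S).card : ℝ) ≤
        ((TH446.HN.Av univ Ev S).card : ℝ) := by exact_mod_cast h1
    rw [one_div, ← div_eq_inv_mul, le_div_iff₀ (by linarith)]
    linarith
  have hsum : ∀ e ∈ II F, ∀ T ⊆ II F, (∀ e' ∈ T, Nb e e') →
      ∑ _e' ∈ T, 1 / (N : ℝ) ≤ 1 / 4 := by
    intro e he T hT hTn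
    rw [sum_const, nsmul_eq_mul]
    have h1 : T.card ≤ 32 * (n * (Tup F).card) := by
      refine le_trans (card_le_card ?_) (count_nb F hF e)
      intro e' he'
      rw [mem_filter]
      exact ⟨hT he', hTn e' he'⟩
    have h2 := card_Tup F h4
    have h3 : 4 * T.card ≤ N := by
      calc 4 * T.card ≤ 4 * (32 * (n * (24 * F.card))) := by gcongr; exact h1.trans (by gcongr)
        _ = n * (3072 * F.card) := by ring
        _ ≤ n * ((n - 1) * (n - 2) * (n - 3)) := by gcongr
        _ = N := by rw [hN]; ring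
    have h4' : (4 : ℝ) * T.card ≤ N := by exact_mod_cast h3
    rw [mul_one_div, div_le_div_iff₀ (by linarith) (by norm_num)]
    linarith
  obtain ⟨σ, -, hσ⟩ := TH446.HN.lll (univ : Finset (ZMod n ≃ Fin n)) Ev (II F) Nb
    (fun _ => 1 / (N : ℝ)) ⟨Fintype.equivOfCardEq hcardeq, mem_univ _⟩
    (fun e _ => by positivity)
    (fun e _ => by
      rw [div_le_div_iff₀ (by linarith) (by norm_num)]
      linarith) hlop hsum
  refine ⟨σ, ?_⟩
  intro i j hdisj hmem
  set e : Idx n := ((i, j), ![σ i, σ (i + 1), σ j, σ (j + 1)]) with he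
  have hone : (1 : ZMod n) ≠ 0 := by
    have : Fact (1 < n) := ⟨by omega⟩
    exact one_ne_zero
  have hev : Ev e σ := by
    intro k
    fin_cases k <;> simp [pos, he]
  rw [disjoint_left] at hdisj
  simp only [mem_insert, mem_singleton, not_or] at hdisj
  have d1 := hdisj (Or.inl rfl)
  have d2 := hdisj (Or.inr rfl)
  have q1 : i ≠ i + 1 := fun h => hone (by simpa using h)
  have q2 : j ≠ j + 1 := fun h => hone (by simpa using h)
  have q3 : i ≠ j := fun h => d1.1 (by rw [h])
  have q4 : i ≠ j + 1 := fun h => d1.2 (by rw [h])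
  have q5 : i + 1 ≠ j := fun h => d2.1 (by rw [h])
  have q6 : i + 1 ≠ j + 1 := fun h => d2.2 (by rw [h])
  have hpos : Function.Injective (pos e) := inj4 _ _ _ _ q1 q3 q4 q5 q6 q2
  have hval : Function.Injective e.2 := by
    intro k l hkl
    have h1 := hev k
    have h2 := hev l
    rw [← h1, ← h2] at hkl
    exact hpos (σ.injective hkl)
  apply hσ e _ hev
  rw [mem_II, mem_Tup]
  refine ⟨hpos, hval, ?_⟩
  have : univ.image e.2 = ({σ i, σ (i + 1)} ∪ {σ j, σ (j + 1)} : Finset (Fin n)) := by
    ext x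
    simp only [mem_image, mem_univ, true_and, mem_union, mem_insert, mem_singleton,
      Fin.exists_fin_succ, he]
    simp [eq_comm]
    tauto
  rw [this]
  exact hmem

end Events

/-! ## The upper bound -/

section Upper

variable {n : ℕ} [NeZero n]

/-- All 4-element sets that contain two consecutive vertices `z`, `z + 1`. -/
def F0 (n : ℕ) [NeZero n] : Finset (Finset (Fin n)) :=
  (powersetCard 4 univ).filter fun X => ∃ z : Fin n, z ∈ X ∧ z + 1 ∈ X

lemma mem_F0 {X : Finset (Fin n)} : X ∈ F0 n ↔ X.card = 4 ∧ ∃ z : Fin n, z ∈ X ∧ z + 1 ∈ X := by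
  unfold F0
  rw [mem_filter, mem_powersetCard]
  simp

lemma F0_transitive : VertexTransitive (F0 n) := by
  classical
  intro x y
  set a : Fin n := y - x with ha
  have hinj : Function.Injective (fun X : Finset (Fin n) => X.image (Equiv.addRight a)) :=
    Finset.image_injective (Equiv.injective _)
  refine ⟨Equiv.addRight a, ?_, ?_⟩
  · apply eq_of_subset_of_card_le
    · intro Y hY
      rw [mem_image] at hY
      obtain ⟨X, hX, rfl⟩ := hY
      rw [mem_F0] at hX ⊢
      obtain ⟨h4, z, hz, hz1⟩ := hX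
      refine ⟨by rw [card_image_of_injective _ (Equiv.injective _), h4], z + a, ?_, ?_⟩
      · exact mem_image_of_mem _ hz
      · have := mem_image_of_mem (Equiv.addRight a) hz1
        have h : Equiv.addRight a (z + 1) = z + a + 1 := by
          rw [Equiv.coe_addRight]
          exact add_right_comm z 1 a
        rwa [h] at this
    · rw [card_image_of_injective _ hinj]
  · rw [Equiv.coe_addRight, ha]
    exact add_sub_cancel x y

lemma F0_blocking (hn : 4 ≤ n) : Blocking (F0 n) := by
  classical
  refine ⟨fun X hX => (mem_F0.1 hX).1, ?_⟩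
  intro c hc
  have h10 : (1 : Fin n) ≠ 0 := by
    intro h
    have := congrArg Fin.val h
    rw [Fin.val_one', Fin.val_zero] at this
    rw [Nat.mod_eq_of_lt (by omega)] at this
    omega
  -- positions differing by one, two or three are distinct
  have hz : ∀ m : ℕ, 0 < m → m < n → (m : ZMod n) ≠ 0 := by
    intro m h0 h1 h
    rw [ZMod.natCast_eq_zero_iff] at h
    exact absurd (Nat.le_of_dvd h0 h) (by omega)
  have hz1 : (1 : ZMod n) ≠ 0 := by simpa using hz 1 (by norm_num) (by omega)
  have hz2 : (2 : ZMod n) ≠ 0 := by simpa using hz 2 (by norm_num) (by omega)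
  have hz3 : (3 : ZMod n) ≠ 0 := by simpa using hz 3 (by norm_num) (by omega)
  -- a pair of disjoint edges whose union contains `0` and `1` is bad
  have key : ∀ i j : ZMod n, i ≠ j → i ≠ j + 1 → i + 1 ≠ j →
      (0 : Fin n) ∈ ({c i, c (i + 1)} ∪ {c j, c (j + 1)} : Finset (Fin n)) →
      (1 : Fin n) ∈ ({c i, c (i + 1)} ∪ {c j, c (j + 1)} : Finset (Fin n)) → False := by
    intro i j h1 h2 h3 m0 m1
    have h4 : i + 1 ≠ j + 1 := fun h => h1 (add_right_cancel h)
    have h5 : i ≠ i + 1 := fun h => hz1 (by simpa using h)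
    have h6 : j ≠ j + 1 := fun h => hz1 (by simpa using h)
    have hd : Disjoint ({c i, c (i + 1)} : Finset (Fin n)) {c j, c (j + 1)} := by
      rw [disjoint_left]
      intro x hx hx'
      rw [mem_insert, mem_singleton] at hx hx'
      rcases hx with rfl | rfl <;> rcases hx' with h | h
      · exact h1 (c.injective h)
      · exact h2 (c.injective h)
      · exact h3 (c.injective h)
      · exact h4 (c.injective h)
    apply hc i j hd
    rw [mem_F0]
    refine ⟨?_, 0, m0, by rw [zero_add]; exact m1⟩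
    rw [card_union_of_disjoint hd, card_pair (fun h => h5 (c.injective h)),
      card_pair (fun h => h6 (c.injective h))]
  set i := c.symm 0 with hi
  set j := c.symm 1 with hj
  have hci : c i = 0 := by rw [hi, Equiv.apply_symm_apply]
  have hcj : c j = 1 := by rw [hj, Equiv.apply_symm_apply]
  have hij : i ≠ j := by
    intro h
    rw [h, hcj] at hci
    exact h10 hci
  by_cases h1 : j = i + 1
  · refine key i (i + 2) ?_ ?_ ?_ ?_ ?_
    · exact fun h => hz2 (by simpa using h)
    · intro h
      apply hz3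
      have h' : i = i + 3 := h.trans (by ring)
      simpa using h'
    · intro h
      apply hz1
      have : i + 1 + 1 = i + 1 := by rw [add_assoc, one_add_one_eq_two]; exact h.symm
      simpa using this
    · rw [hci]; simp
    · rw [← h1, hcj]; simp
  · by_cases h2 : i = j + 1
    · refine key j (j + 2) ?_ ?_ ?_ ?_ ?_
      · exact fun h => hz2 (by simpa using h)
      · intro h
        apply hz3
        have h' : j = j + 3 := h.trans (by ring)
        simpa using h'
      · intro h
        apply hz1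
        have : j + 1 + 1 = j + 1 := by rw [add_assoc, one_add_one_eq_two]; exact h.symm
        simpa using this
      · rw [← h2, hci]; simp
      · rw [hcj]; simp
    · refine key i j hij h2 (fun h => h1 h.symm) ?_ ?_
      · rw [hci]; simp
      · rw [hcj]; simp

lemma F0_card (hn : 4 ≤ n) : (F0 n).card ≤ n * (n - 2).choose 2 := by
  classical
  have h10 : (1 : Fin n) ≠ 0 := by
    intro h
    have := congrArg Fin.val h
    rw [Fin.val_one', Fin.val_zero] at this
    rw [Nat.mod_eq_of_lt (by omega)] at this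
    omega
  have h1 : F0 n ⊆ (univ : Finset (Fin n)).biUnion fun z =>
      (powersetCard 2 ((univ : Finset (Fin n)) \ {z, z + 1})).image fun Y => insert z (insert (z + 1) Y) := by
    intro X hX
    rw [mem_F0] at hX
    obtain ⟨h4, z, hz, hz1⟩ := hX
    rw [mem_biUnion]
    refine ⟨z, mem_univ _, ?_⟩
    rw [mem_image]
    have hne : z + 1 ≠ z := fun h => h10 (by simpa using h)
    refine ⟨(X.erase z).erase (z + 1), ?_, ?_⟩
    · rw [mem_powersetCard]
      refine ⟨?_, ?_⟩
      · intro x hx
        rw [mem_erase, mem_erase] at hx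
        rw [mem_sdiff, mem_insert, mem_singleton, not_or]
        exact ⟨mem_univ _, hx.2.1, hx.1⟩
      · rw [card_erase_of_mem (mem_erase.2 ⟨hne, hz1⟩), card_erase_of_mem hz, h4]
    · rw [insert_erase (mem_erase.2 ⟨hne, hz1⟩), insert_erase hz]
  refine (card_le_card h1).trans (card_biUnion_le.trans ?_)
  calc ∑ z : Fin n, ((powersetCard 2 ((univ : Finset (Fin n)) \ {z, z + 1})).image
        fun Y => insert z (insert (z + 1) Y)).card
      ≤ ∑ _z : Fin n, (n - 2).choose 2 := by
        refine sum_le_sum fun z _ => card_image_le.trans ?_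
        have hne : z ≠ z + 1 := fun h => h10 (by simpa using h)
        rw [card_powersetCard, card_univ_sdiff, card_pair hne, Fintype.card_fin]
    _ = n * (n - 2).choose 2 := by rw [sum_const, card_univ, Fintype.card_fin, smul_eq_mul]

end Upper

/-- **Main theorem.**  For all `n ≥ 4` there is a vertex-transitive blocking family, and the
smallest size `v n` of such a family satisfies
`(n-1)(n-2)(n-3) / 3072 < v n ≤ n (n-2)(n-3) / 2`.  So `v n` has order `n ^ 3`, and `v n / n ^ 2`
is unbounded. -/
theorem result :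
    (∀ n : ℕ, 4 ≤ n →
      (∃ F : Finset (Finset (Fin n)), Blocking F ∧ VertexTransitive F ∧ F.card = v n) ∧
      (n - 1) * (n - 2) * (n - 3) < 3072 * v n ∧ v n ≤ n * (n - 2).choose 2) ∧
    ¬ ∃ C : ℝ, ∀ n : ℕ, 4 ≤ n → (v n : ℝ) ≤ C * (n : ℝ) ^ 2 := by
  have main : ∀ n : ℕ, 4 ≤ n →
      (∃ F : Finset (Finset (Fin n)), Blocking F ∧ VertexTransitive F ∧ F.card = v n) ∧
      (n - 1) * (n - 2) * (n - 3) < 3072 * v n ∧ v n ≤ n * (n - 2).choose 2 := by
    intro n hn
    have : NeZero n := ⟨by omega⟩
    have hmem : (F0 n).card ∈ {k | ∃ F : Finset (Finset (Fin n)),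
        Blocking F ∧ VertexTransitive F ∧ F.card = k} := ⟨F0 n, F0_blocking hn, F0_transitive, rfl⟩
    have hv := Nat.sInf_mem ⟨_, hmem⟩
    refine ⟨hv, ?_, (Nat.sInf_le hmem).trans (F0_card hn)⟩
    by_contra hcon
    push Not at hcon
    obtain ⟨F, hF1, hF2, hF3⟩ := hv
    obtain ⟨c, hc⟩ := exists_acceptable hn F hF2 hF1.1 (by rw [hF3]; exact hcon)
    exact hF1.2 c hc
  refine ⟨main, ?_⟩
  rintro ⟨C, hC⟩
  obtain ⟨m, hm⟩ := exists_nat_gt (|C| * 3072 * 8)
  have h := main (m + 8) (by omega)
  have h1 := hC (m + 8) (by omega)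
  have h2 : ((m + 8 - 1 : ℕ) : ℝ) * ((m + 8 - 2 : ℕ) : ℝ) * ((m + 8 - 3 : ℕ) : ℝ) <
      3072 * (v (m + 8) : ℝ) := by exact_mod_cast h.2.1
  have e1 : (m + 8 - 1 : ℕ) = m + 7 := by omega
  have e2 : (m + 8 - 2 : ℕ) = m + 6 := by omega
  have e3 : (m + 8 - 3 : ℕ) = m + 5 := by omega
  rw [e1, e2, e3] at h2
  push_cast at h1 h2
  have hm0 : (0 : ℝ) ≤ m := Nat.cast_nonneg m
  have hC' : C ≤ |C| := le_abs_self C
  have h3 : (v (m + 8) : ℝ) ≤ |C| * ((m : ℝ) + 8) ^ 2 :=
    h1.trans (mul_le_mul_of_nonneg_right hC' (by positivity))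
  have h4 : ((m : ℝ) + 7) * (m + 6) * (m + 5) < 3072 * (|C| * ((m : ℝ) + 8) ^ 2) := by linarith
  have h5 : 3072 * |C| * 8 < m := by linarith
  have h6 : ((m : ℝ) + 8) ^ 2 ≤ 8 * (((m : ℝ) + 7) * (m + 6)) := by nlinarith
  have h7 : 3072 * (|C| * ((m : ℝ) + 8) ^ 2) ≤ 3072 * |C| * (8 * (((m : ℝ) + 7) * (m + 6))) := by
    have := mul_le_mul_of_nonneg_left h6 (by positivity : (0 : ℝ) ≤ 3072 * |C|)
    linarith
  have h8 : (3072 * |C| * 8) * (((m : ℝ) + 7) * (m + 6)) ≤ m * (((m : ℝ) + 7) * (m + 6)) :=
    mul_le_mul_of_nonneg_right h5.le (by positivity)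
  nlinarith [mul_nonneg hm0 hm0]

end Pool.Agent.Results.MP_ef0d97_co.CubicOrder
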